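import Pool.Agent.H78.CB.Ps
import Pool.Agent.H93.DC.Smooth

/-!
Chebyshev bounds for the `j`-th prime and the singular factor of a central binomial coefficient.
-/

set_option autoImplicit false

namespace Pool.Agent.H78.CB

open Pool.Agent.H17 Pool.H53.NA

/-- the `j`-th prime, `pr 1 = 2` -/
noncomputable def pr (j : ℕ) : ℕ := Nat.nth Nat.Prime (j - 1)

lemma pr_prime (j : ℕ) : (pr j).Prime := Nat.prime_nth_prime _

lemma pr_inj {i j : ℕ} (hi : 1 ≤ i) (hj : 1 ≤ j) (h : pr i = pr j) : i = j := by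
  have h1 := Nat.nth_injective Nat.infinite_setOf_prime h
  omega

lemma pr_mono {i j : ℕ} (h : i ≤ j) : pr i ≤ pr j := by
  unfold pr
  exact (Nat.nth_monotone Nat.infinite_setOf_prime) (by omega)

lemma pi_pr {j : ℕ} (hj : 1 ≤ j) : Nat.primeCounting (pr j) = j := by
  unfold pr Nat.primeCounting Nat.primeCounting'
  rw [Nat.count_nth_succ (by
    intro hf
    exact absurd hf Nat.infinite_setOf_prime)]
  omega

lemma le_pr {j : ℕ} : j ≤ pr j := by
  unfold pr
  have h := Nat.add_two_le_nth_prime (j - 1)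
  omega

lemma three_le_pr {j : ℕ} (hj : 2 ≤ j) : 3 ≤ pr j := by
  unfold pr
  have h := Nat.add_two_le_nth_prime (j - 1)
  omega

/-- Chebyshev's lower bound -/
lemma cheb {P : ℕ} (hP : 3 ≤ P) : (P : ℝ) / 5 ≤ (Nat.primeCounting P : ℝ) * Real.log P := by
  have hPr : (3 : ℝ) ≤ P := by exact_mod_cast hP
  have h := Chebyshev.pi_ge P
  have hl : 0 < Real.log (P : ℝ) := Real.log_pos (by linarith)
  rw [div_le_iff₀ hl] at h
  refine le_trans ?_ h
  have h2 := Real.log_two_gt_d9
  have h3 : Real.log ((P : ℝ) + 1) ≤ 2 * Real.log 2 + ((P : ℝ) + 1) / 4 - 1 := by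
    have e : (P : ℝ) + 1 = 4 * (((P : ℝ) + 1) / 4) := by ring
    have e4 : Real.log 4 = 2 * Real.log 2 := by
      rw [show (4 : ℝ) = 2 ^ 2 by norm_num, Real.log_pow]
      norm_num
    have h4 : Real.log ((P : ℝ) + 1) = Real.log 4 + Real.log (((P : ℝ) + 1) / 4) := by
      rw [← Real.log_mul (by norm_num) (by positivity)]
      congr 1
    have h5 := Real.log_le_sub_one_of_pos (show 0 < ((P : ℝ) + 1) / 4 by positivity)
    rw [h4, e4]
    linarith
  nlinarith

lemma log_pr_le {k : ℕ} (hk : 2 ≤ k) : Real.log (pr k : ℝ) ≤ 9 * Real.log k := by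
  have h3 := three_le_pr hk
  have hPr : (3 : ℝ) ≤ pr k := by exact_mod_cast h3
  have hc := cheb h3
  rw [pi_pr (by omega)] at hc
  have hk2 : (2 : ℝ) ≤ k := by exact_mod_cast hk
  have hlog : Real.log (pr k : ℝ) ≤ 2 * Real.sqrt (pr k : ℝ) := by
    have h4 := Real.log_le_sub_one_of_pos (show 0 < Real.sqrt (pr k : ℝ) from Real.sqrt_pos.2 (by linarith))
    rw [Real.log_sqrt (by linarith)] at h4
    linarith
  have hs : Real.sqrt (pr k : ℝ) * Real.sqrt (pr k : ℝ) = pr k := Real.mul_self_sqrt (by linarith)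
  have hs0 : 0 < Real.sqrt (pr k : ℝ) := Real.sqrt_pos.2 (by linarith)
  have h5 : Real.sqrt (pr k : ℝ) ≤ 10 * k := by
    have h6 : Real.sqrt (pr k : ℝ) * Real.sqrt (pr k : ℝ) / 5 ≤ k * (2 * Real.sqrt (pr k : ℝ)) := by
      rw [hs]
      exact hc.trans (mul_le_mul_of_nonneg_left hlog (by linarith))
    by_contra hcon
    push Not at hcon
    nlinarith [mul_pos hs0 (sub_pos.2 hcon)]
  have h7 : (pr k : ℝ) ≤ 128 * k ^ 2 := by
    nlinarith [mul_le_mul h5 h5 hs0.le (by positivity)]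
  have hl2 : 0 < Real.log 2 := Real.log_pos (by norm_num)
  have h8 : Real.log (pr k : ℝ) ≤ Real.log (128 * (k : ℝ) ^ 2) := Real.log_le_log (by linarith) h7
  rw [Real.log_mul (by norm_num) (by positivity), show (128 : ℝ) = 2 ^ 7 by norm_num, Real.log_pow, Real.log_pow] at h8
  have h9 : Real.log 2 ≤ Real.log k := Real.log_le_log (by norm_num) hk2
  push_cast at h8
  linarith

lemma X_le {N : ℕ} (hN : 2 ≤ N) : (pr N : ℝ) / (Real.log (pr N : ℝ)) ^ 2 ≤ 5 * (N / Real.log N) := by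
  have h3 := three_le_pr hN
  have hPr : (3 : ℝ) ≤ pr N := by exact_mod_cast h3
  have hc := cheb h3
  rw [pi_pr (by omega)] at hc
  have hN2 : (2 : ℝ) ≤ N := by exact_mod_cast hN
  have hlN : 0 < Real.log (N : ℝ) := Real.log_pos (by linarith)
  have hle : Real.log (N : ℝ) ≤ Real.log (pr N : ℝ) := by
    apply Real.log_le_log (by linarith)
    exact_mod_cast le_pr
  have hlX : 0 < Real.log (pr N : ℝ) := lt_of_lt_of_le hlN hle
  rw [← mul_div_assoc, div_le_div_iff₀ (by positivity) hlN]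
  have h1 : (pr N : ℝ) ≤ 5 * N * Real.log (pr N : ℝ) := by linarith
  calc (pr N : ℝ) * Real.log N ≤ (5 * N * Real.log (pr N : ℝ)) * Real.log (pr N : ℝ) := by
        apply mul_le_mul h1 hle hlN.le (by positivity)
    _ = 5 * N * Real.log (pr N : ℝ) ^ 2 := by ring

/-- the singular factor of a smooth number -/
lemma SF_smooth {h Y : ℕ} (hY : 3 ≤ Y) (H : ∀ p : ℕ, p.Prime → p ∣ h → p < Y) :
    SF h ≤ 2 * Real.exp 6 * Real.log Y := by
  refine le_trans ?_ (Pool.Agent.H93.DC.MP_le hY)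
  unfold SF Pool.Agent.H93.DC.MP
  have e : ∀ p : ℕ, p.Prime → (1 + 1 / ((p : ℝ) - 1)) = (1 - (p : ℝ)⁻¹)⁻¹ := by
    intro p hp
    have h1 : (2 : ℝ) ≤ p := by exact_mod_cast hp.two_le
    have h2 : (p : ℝ) - 1 ≠ 0 := by
      intro h3
      linarith
    have h4 : (p : ℝ) ≠ 0 := by
      intro h3
      linarith
    have h5 : 1 - (p : ℝ)⁻¹ = ((p : ℝ) - 1) / p := by field_simp
    rw [h5, inv_div]
    field_simp
    ring
  have h1 : ∏ p ∈ h.primeFactors.filter (fun p => p ≠ 2), (1 + 1 / ((p : ℝ) - 1)) ≤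
      ∏ p ∈ Y.primesBelow, (1 + 1 / ((p : ℝ) - 1)) := by
    apply Finset.prod_le_prod_of_subset_of_one_le
    · intro p hp
      have h2 := Finset.mem_filter.mp hp
      rw [Nat.mem_primesBelow]
      exact ⟨H p (Nat.prime_of_mem_primeFactors h2.1) (Nat.dvd_of_mem_primeFactors h2.1),
        Nat.prime_of_mem_primeFactors h2.1⟩
    · intro p hp
      have := psb_w1_nonneg (Nat.prime_of_mem_primeFactors (Finset.mem_filter.mp hp).1)
      linarith
    · intro p hp _
      have := psb_w1_nonneg (Nat.prime_of_mem_primesBelow hp)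
      linarith
  refine h1.trans (le_of_eq ?_)
  apply Finset.prod_congr rfl
  intro p hp
  exact e p (Nat.prime_of_mem_primesBelow hp)

/-- the central binomial coefficient of the `k`-th prime -/
noncomputable def cb (k : ℕ) : ℕ := (pr k - 1).choose ((pr k - 1) / 2)

lemma cb_even {k : ℕ} (hk : 2 ≤ k) : 2 ∣ cb k := by
  have h3 := three_le_pr hk
  have hodd : Odd (pr k) := (pr_prime k).odd_of_ne_two (by omega)
  obtain ⟨m, hm⟩ := hodd
  have h1 : pr k - 1 = 2 * m := by omega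
  unfold cb
  rw [h1, Nat.mul_div_cancel_left m (by norm_num)]
  exact Nat.two_dvd_centralBinom_of_one_le (by omega)

lemma cb_pos (k : ℕ) : 0 < cb k := Nat.choose_pos (Nat.div_le_self _ _)

lemma cb_smooth (k p : ℕ) (hp : p.Prime) (h : p ∣ cb k) : p < pr k := by
  have h1 : p ∣ (pr k - 1).factorial := by
    unfold cb at h
    have h2 := Nat.choose_mul_factorial_mul_factorial (Nat.div_le_self (pr k - 1) 2)
    rw [← h2, mul_assoc]
    exact dvd_mul_of_dvd_left h _
  have h3 := (hp.dvd_factorial).mp h1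
  have := (pr_prime k).two_le
  omega

lemma SF_cb {k : ℕ} (hk : 2 ≤ k) : SF (cb k) ≤ 18 * Real.exp 6 * Real.log k := by
  have h := SF_smooth (three_le_pr hk) (cb_smooth k)
  have h1 := log_pr_le hk
  have h2 : 0 ≤ 2 * Real.exp 6 := by positivity
  have h3 := mul_le_mul_of_nonneg_left h1 h2
  linarith

end Pool.Agent.H78.CB
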