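import Pool.Agent.H78.CB.Ch

/-!
Few `n ≤ N` have `p_n + cb k` prime for a small `k`.
-/

set_option autoImplicit false

namespace Pool.Agent.H78.CB

open Pool.Agent.H17 Pool.H53.NA

open Classical in
theorem few : ∃ C : ℝ, 0 < C ∧ ∃ N0 : ℕ, ∀ N : ℕ, N0 ≤ N → ∀ K : ℕ, 2 ≤ K →
    (((Finset.Icc 1 N).filter (fun n : ℕ => ∃ k : ℕ, 1 < k ∧ k ≤ K ∧ (pr n + cb k).Prime)).card : ℝ)
      ≤ C * N * (K * Real.log K / Real.log N) := by
  obtain ⟨C1, hC1, X0, hX0, hp⟩ := pair1
  refine ⟨C1 * 5 * (18 * Real.exp 6), by positivity, max X0 2, ?_⟩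
  intro N hN K hK
  have hN2 : 2 ≤ N := (le_max_right _ _).trans hN
  have hNX : X0 ≤ pr N := ((le_max_left _ _).trans hN).trans le_pr
  have hNr : (2 : ℝ) ≤ N := by exact_mod_cast hN2
  have hlN : 0 < Real.log (N : ℝ) := Real.log_pos (by linarith)
  -- one `k`
  have key : ∀ k ∈ Finset.Icc 2 K, (((Finset.Icc 1 N).filter (fun n : ℕ => (pr n + cb k).Prime)).card : ℝ)
      ≤ C1 * 5 * (18 * Real.exp 6) * (N / Real.log N) * Real.log K := by
    intro k hk
    rw [Finset.mem_Icc] at hk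
    have h1 : ((Finset.Icc 1 N).filter (fun n : ℕ => (pr n + cb k).Prime)).card ≤
        ((Finset.Icc 1 (pr N)).filter fun m => m ≡ 1 [MOD 2] ∧ m.Prime ∧ (m + cb k).Prime).card := by
      apply Finset.card_le_card_of_injOn pr
      · intro n hn
        have hn' := Finset.mem_filter.mp (Finset.mem_coe.mp hn)
        rw [Finset.mem_Icc] at hn'
        apply Finset.mem_coe.mpr
        rw [Finset.mem_filter, Finset.mem_Icc]
        refine ⟨⟨(pr_prime n).one_lt.le, pr_mono hn'.1.2⟩, ?_, pr_prime n, hn'.2⟩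
        have h2 : pr n ≠ 2 := by
          intro h3
          have h4 := hn'.2
          rw [h3] at h4
          obtain ⟨c, hc⟩ := cb_even hk.1
          have h5 := cb_pos k
          have h6 := (Nat.prime_dvd_prime_iff_eq Nat.prime_two h4).mp ⟨1 + c, by rw [hc]; ring⟩
          omega
        exact (Nat.odd_iff.mp ((pr_prime n).odd_of_ne_two h2)).trans rfl
      · intro a ha b hb hab
        have ha' := (Finset.mem_Icc.mp (Finset.mem_filter.mp (Finset.mem_coe.mp ha)).1).1
        have hb' := (Finset.mem_Icc.mp (Finset.mem_filter.mp (Finset.mem_coe.mp hb)).1).1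
        exact pr_inj ha' hb' hab
    have h2 := hp (pr N) hNX (cb k) (cb_pos k)
    have h3 := X_le hN2
    have h4 := SF_cb hk.1
    have h5 : Real.log (k : ℝ) ≤ Real.log K := by
      apply Real.log_le_log
      · have : (2 : ℝ) ≤ k := by exact_mod_cast hk.1
        linarith
      · exact_mod_cast hk.2
    have h6 : 0 ≤ Real.log (k : ℝ) := Real.log_nonneg (by exact_mod_cast (by omega : 1 ≤ k))
    calc (((Finset.Icc 1 N).filter (fun n : ℕ => (pr n + cb k).Prime)).card : ℝ)
        ≤ (((Finset.Icc 1 (pr N)).filter fun m => m ≡ 1 [MOD 2] ∧ m.Prime ∧ (m + cb k).Prime).card : ℝ) := by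
          exact_mod_cast h1
      _ ≤ C1 * ((pr N : ℝ) / (Real.log (pr N : ℝ)) ^ 2) * SF (cb k) := h2
      _ ≤ C1 * (5 * (N / Real.log N)) * (18 * Real.exp 6 * Real.log K) := by
          apply mul_le_mul
          · exact mul_le_mul_of_nonneg_left h3 hC1.le
          · refine h4.trans ?_
            exact mul_le_mul_of_nonneg_left h5 (by positivity)
          · linarith [one_le_SF (cb k)]
          · positivity
      _ = C1 * 5 * (18 * Real.exp 6) * (N / Real.log N) * Real.log K := by ring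
  have hsub : (Finset.Icc 1 N).filter (fun n : ℕ => ∃ k : ℕ, 1 < k ∧ k ≤ K ∧ (pr n + cb k).Prime) ⊆
      (Finset.Icc 2 K).biUnion (fun k => (Finset.Icc 1 N).filter (fun n : ℕ => (pr n + cb k).Prime)) := by
    intro n hn
    rw [Finset.mem_filter] at hn
    obtain ⟨hn1, k, hk1, hk2, hk3⟩ := hn
    rw [Finset.mem_biUnion]
    exact ⟨k, Finset.mem_Icc.mpr ⟨hk1, hk2⟩, Finset.mem_filter.mpr ⟨hn1, hk3⟩⟩
  have hcard := (Finset.card_le_card hsub).trans Finset.card_biUnion_le
  have hlK : 0 ≤ Real.log (K : ℝ) := Real.log_nonneg (by exact_mod_cast (by omega : 1 ≤ K))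
  calc (((Finset.Icc 1 N).filter (fun n : ℕ => ∃ k : ℕ, 1 < k ∧ k ≤ K ∧ (pr n + cb k).Prime)).card : ℝ)
      ≤ ((∑ k ∈ Finset.Icc 2 K, ((Finset.Icc 1 N).filter (fun n : ℕ => (pr n + cb k).Prime)).card : ℕ) : ℝ) := by
        exact_mod_cast hcard
    _ = ∑ k ∈ Finset.Icc 2 K, (((Finset.Icc 1 N).filter (fun n : ℕ => (pr n + cb k).Prime)).card : ℝ) := by
        push_cast
        rfl
    _ ≤ ∑ _k ∈ Finset.Icc 2 K, C1 * 5 * (18 * Real.exp 6) * (N / Real.log N) * Real.log K :=
        Finset.sum_le_sum key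
    _ = ((Finset.Icc 2 K).card : ℝ) * (C1 * 5 * (18 * Real.exp 6) * (N / Real.log N) * Real.log K) := by
        rw [Finset.sum_const, nsmul_eq_mul]
    _ ≤ (K : ℝ) * (C1 * 5 * (18 * Real.exp 6) * (N / Real.log N) * Real.log K) := by
        apply mul_le_mul_of_nonneg_right
        · rw [Nat.card_Icc]
          exact_mod_cast (by omega : K + 1 - 2 ≤ K)
        · positivity
    _ = C1 * 5 * (18 * Real.exp 6) * N * (K * Real.log K / Real.log N) := by ring

end Pool.Agent.H78.CB
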