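import Pool.Agent.H53.NU.PsC

/-!
Selberg's denominator for prime pairs, with the correct first power of the singular factor.
-/

set_option autoImplicit false

namespace Pool.Agent.H78.CB

open Pool.Agent.H17 Pool.H53.NA

/-- the singular factor `∏_{p ∣ h, p ≠ 2} (1 + 1/(p-1))` -/
noncomputable def SF (h : ℕ) : ℝ := ∏ p ∈ h.primeFactors.filter (fun p => p ≠ 2), (1 + 1 / ((p : ℝ) - 1))

lemma one_le_SF (h : ℕ) : 1 ≤ SF h := by
  unfold SF
  apply Finset.one_le_prod
  intro p hp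
  have hpp := Nat.prime_of_mem_primeFactors (Finset.mem_filter.mp hp).1
  linarith [psb_w1_nonneg hpp]

theorem pair_GG1 (h z : ℕ) (hh : 0 < h) (hz : 1 ≤ z) :
    (Real.log z) ^ 2 / 2 ≤ 4 * SF h * Op (PPb 2 z) (hp2 h) one1 z := by
  classical
  set S0 : Finset ℕ := (Finset.range (z + 1)).filter Nat.Prime with hS0
  set S2 : Finset ℕ := S0.filter (fun p => p = 2) with hS2
  set Sh : Finset ℕ := (S0.filter (fun p => ¬ p = 2)).filter (fun p => p ∣ h) with hSh
  set S1 : Finset ℕ := (S0.filter (fun p => ¬ p = 2)).filter (fun p => ¬ p ∣ h) with hS1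
  have hun1 : Sh ∪ S1 = S0.filter (fun p => ¬ p = 2) := Finset.filter_union_filter_not_eq _ _
  have hun : S2 ∪ (Sh ∪ S1) = S0 := by
    rw [hun1]
    exact Finset.filter_union_filter_not_eq _ _
  have hdis1 : Disjoint Sh S1 := Finset.disjoint_filter_filter_not _ _ _
  have hdis2 : Disjoint S2 (Sh ∪ S1) := by
    rw [hun1]
    exact Finset.disjoint_filter_filter_not _ _ _
  have hp0 : ∀ p ∈ S0, p.Prime := fun p hp => (Finset.mem_filter.mp hp).2
  have hp2' : ∀ p ∈ S2, p.Prime := fun p hp => hp0 p (Finset.mem_filter.mp hp).1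
  have hph : ∀ p ∈ Sh, p.Prime := fun p hp => hp0 p (Finset.mem_filter.mp (Finset.mem_filter.mp hp).1).1
  have hp1 : ∀ p ∈ S1, p.Prime := fun p hp => hp0 p (Finset.mem_filter.mp (Finset.mem_filter.mp hp).1).1
  set g : ℕ → ℝ := fun p => 1 / ((p : ℝ) - 1) with hg
  have g0 : ∀ p ∈ S0, 0 ≤ g p := fun p hp => psb_w1_nonneg (hp0 p hp)
  have g2 : ∀ p ∈ S2, 0 ≤ g p := fun p hp => psb_w1_nonneg (hp2' p hp)
  have gh : ∀ p ∈ Sh, 0 ≤ g p := fun p hp => psb_w1_nonneg (hph p hp)
  have g1 : ∀ p ∈ S1, 0 ≤ g p := fun p hp => psb_w1_nonneg (hp1 p hp)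
  have gh1 : ∀ p ∈ Sh ∪ S1, 0 ≤ g p := by
    intro p hp
    rcases Finset.mem_union.mp hp with h' | h'
    · exact gh p h'
    · exact g1 p h'
  have hall : ∀ u ≤ z, ∀ p : ℕ, p.Prime → p ≤ u → p ∈ S0 := by
    intro u hu p hp hpu
    rw [hS0, Finset.mem_filter, Finset.mem_range]
    exact ⟨by omega, hp⟩
  -- the product over `2`
  have hprod2 : ∏ p ∈ S2, (1 + g p) ≤ 2 := by
    have hsub : S2 ⊆ {2} := by
      intro p hp
      rw [Finset.mem_singleton]
      exact (Finset.mem_filter.mp hp).2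
    calc ∏ p ∈ S2, (1 + g p) ≤ ∏ p ∈ ({2} : Finset ℕ), (1 + g p) := by
          apply Finset.prod_le_prod_of_subset_of_one_le hsub
          · intro p hp
            linarith [g2 p hp]
          · intro p hp _
            rw [Finset.mem_singleton] at hp
            subst hp
            rw [hg]
            norm_num
      _ = 2 := by
          rw [Finset.prod_singleton, hg]
          norm_num
  have hprod20 : 0 ≤ ∏ p ∈ S2, (1 + g p) := Finset.prod_nonneg (fun p hp => by linarith [g2 p hp])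
  have hprodh : ∏ p ∈ Sh, (1 + g p) ≤ SF h := by
    unfold SF
    apply Finset.prod_le_prod_of_subset_of_one_le
    · intro p hp
      have h1 := Finset.mem_filter.mp hp
      have h2 := Finset.mem_filter.mp h1.1
      rw [Finset.mem_filter, Nat.mem_primeFactors]
      exact ⟨⟨hph p hp, h1.2, hh.ne'⟩, h2.2⟩
    · intro p hp
      linarith [gh p hp]
    · intro p hp _
      have hpp := Nat.prime_of_mem_primeFactors (Finset.mem_filter.mp hp).1
      linarith [psb_w1_nonneg hpp]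
  have hprodh0 : 0 ≤ ∏ p ∈ Sh, (1 + g p) := Finset.prod_nonneg (fun p hp => by linarith [gh p hp])
  have m1 : Monotone (Op S1 g one1) := Op_mono g1 one1_mono
  have n1 : ∀ u, 0 ≤ Op S1 g one1 u := fun u => Op_nonneg g1 one1_nonneg u
  have m0 : Monotone (Op S0 g one1) := Op_mono g0 one1_mono
  have n0 : ∀ u, 0 ≤ Op S0 g one1 u := fun u => Op_nonneg g0 one1_nonneg u
  have s1 : ∀ u ≤ z, Hs one1 u ≤ Op S0 g one1 u := fun u hu => Hs_le_Op hp0 one1_mono one1_nonneg (hall u hu)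
  have s2 : Hs (Hs one1) z ≤ Op S0 g (Op S0 g one1) z :=
    (Hs_mono_arg (fun w hw => s1 w hw)).trans (Hs_le_Op hp0 m0 n0 (hall z le_rfl))
  -- inner comparison
  have c1 : ∀ u, Op S0 g one1 u ≤ (2 * SF h) * Op S1 g one1 u := by
    intro u
    have mh : Monotone (Op Sh g (Op S1 g one1)) := Op_mono gh m1
    calc Op S0 g one1 u = Op S2 g (Op Sh g (Op S1 g one1)) u := by
          rw [← hun, Op_union hdis2]
          congr 1
          funext v
          rw [Op_union hdis1]
      _ ≤ (∏ p ∈ S2, (1 + g p)) * Op Sh g (Op S1 g one1) u := Op_upper g2 mh u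
      _ ≤ (∏ p ∈ S2, (1 + g p)) * ((∏ p ∈ Sh, (1 + g p)) * Op S1 g one1 u) :=
          mul_le_mul_of_nonneg_left (Op_upper gh m1 u) hprod20
      _ ≤ 2 * (SF h * Op S1 g one1 u) := by
          apply mul_le_mul hprod2 (mul_le_mul_of_nonneg_right hprodh (n1 u)) (mul_nonneg hprodh0 (n1 u)) (by norm_num)
      _ = (2 * SF h) * Op S1 g one1 u := by ring
  have s3 : Op S0 g (Op S0 g one1) z ≤ (2 * SF h) * Op S0 g (Op S1 g one1) z := by
    have h1 : Op S0 g (Op S0 g one1) z ≤ Op S0 g (fun v => (2 * SF h) * Op S1 g one1 v) z :=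
      Op_le_Op g0 (fun v _ => c1 v)
    rw [Op_smul] at h1
    exact h1
  have s4 : Op S0 g (Op S1 g one1) z ≤ 2 * Op (Sh ∪ S1) g (Op S1 g one1) z := by
    have m3 : Monotone (Op (Sh ∪ S1) g (Op S1 g one1)) := Op_mono gh1 m1
    calc Op S0 g (Op S1 g one1) z = Op S2 g (Op (Sh ∪ S1) g (Op S1 g one1)) z := by
          rw [← hun, Op_union hdis2]
      _ ≤ (∏ p ∈ S2, (1 + g p)) * Op (Sh ∪ S1) g (Op S1 g one1) z := Op_upper g2 m3 z
      _ ≤ 2 * Op (Sh ∪ S1) g (Op S1 g one1) z :=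
          mul_le_mul_of_nonneg_right hprod2 (Op_nonneg gh1 n1 z)
  have three : ∀ p : ℕ, p.Prime → p ≠ 2 → (3 : ℝ) ≤ p := by
    intro p hp h3
    have := hp.two_le
    have h4 : 3 ≤ p := by omega
    exact_mod_cast h4
  have s5 : ∀ u, Op S1 g (Op S1 g one1) u ≤ Op S1 (hp2 h) one1 u := by
    intro u
    refine (Op_comp (w3 := fun p => g p + g p + g p * g p) g1 g1 (fun p _ => rfl) one1_mono u).trans ?_
    apply Op_weight_mono _ _ one1_nonneg
    · intro p hp
      have := g1 p hp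
      positivity
    · intro p hp
      have hpp := hp1 p hp
      have h1 := Finset.mem_filter.mp hp
      have h2 := Finset.mem_filter.mp h1.1
      have h3 := three p hpp h2.2
      unfold hp2
      rw [if_neg h1.2]
      simp only [hg]
      have h4 : (0 : ℝ) < (p : ℝ) - 1 := by linarith
      have h5 : (0 : ℝ) < (p : ℝ) - 2 := by linarith
      rw [show 1 / ((p : ℝ) - 1) + 1 / ((p : ℝ) - 1) + 1 / ((p : ℝ) - 1) * (1 / ((p : ℝ) - 1)) = (2 * (p - 1) + 1) / ((p : ℝ) - 1) ^ 2 by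
        field_simp; ring, div_le_div_iff₀ (by positivity) h5]
      nlinarith
  have s6 : Op (Sh ∪ S1) g (Op S1 g one1) z ≤ Op (PPb 2 z) (hp2 h) one1 z := by
    have e1 : PPb 2 z = Sh ∪ S1 := by
      rw [hun1]
      ext p
      rw [mem_PPb, Finset.mem_filter, hS0, Finset.mem_filter, Finset.mem_range]
      constructor
      · rintro ⟨h1, h2, h3⟩
        refine ⟨⟨by omega, h2⟩, ?_⟩
        rintro rfl
        exact h3 dvd_rfl
      · rintro ⟨⟨h1, h2⟩, h3⟩
        refine ⟨by omega, h2, ?_⟩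
        intro h4
        exact h3 ((Nat.prime_dvd_prime_iff_eq h2 Nat.prime_two).mp h4)
    have e2 : Op Sh (hp2 h) (Op S1 (hp2 h) one1) z = Op Sh g (Op S1 (hp2 h) one1) z := by
      unfold Op
      apply Finset.sum_congr rfl
      intro T hT
      congr 1
      apply Finset.prod_congr rfl
      intro p hp
      have h1 := (Finset.mem_filter.mp (Finset.mem_powerset.mp hT hp)).2
      unfold hp2
      rw [if_pos h1]
    rw [e1, Op_union hdis1, Op_union hdis1, e2]
    exact Op_le_Op gh (fun v _ => s5 v)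
  have hSF := one_le_SF h
  have hz2 := psb_Hs_two hz
  have t1 : Op S0 g (Op S1 g one1) z ≤ 2 * Op (PPb 2 z) (hp2 h) one1 z :=
    s4.trans (mul_le_mul_of_nonneg_left s6 (by norm_num))
  have t2 : (2 * SF h) * Op S0 g (Op S1 g one1) z ≤ (2 * SF h) * (2 * Op (PPb 2 z) (hp2 h) one1 z) :=
    mul_le_mul_of_nonneg_left t1 (by linarith)
  calc (Real.log z) ^ 2 / 2 ≤ Hs (Hs one1) z := hz2
    _ ≤ (2 * SF h) * (2 * Op (PPb 2 z) (hp2 h) one1 z) := s2.trans (s3.trans t2)
    _ = 4 * SF h * Op (PPb 2 z) (hp2 h) one1 z := by ring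

end Pool.Agent.H78.CB
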