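import Pool.Agent.H78.CB.Gg

/-!
The upper bound for prime pairs with the correct first power of the singular factor, uniformly in the shift.
-/

set_option autoImplicit false

namespace Pool.Agent.H78.CB

open Pool.Agent.H17 Pool.H53.NA

theorem pair1 : ∃ C : ℝ, 0 < C ∧ ∃ X0 : ℕ, 2 ≤ X0 ∧ ∀ X : ℕ, X0 ≤ X → ∀ h : ℕ, 0 < h →
    (((Finset.Icc 1 X).filter fun m => m ≡ 1 [MOD 2] ∧ m.Prime ∧ (m + h).Prime).card : ℝ)
      ≤ C * ((X : ℝ) / (Real.log X) ^ 2) * SF h := by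
  refine ⟨3202, by norm_num, 2 ^ 80 + (192 * 2) ^ 2, by norm_num, ?_⟩
  intro X hX h hh
  have hXr : (2 : ℝ) ^ 80 + (192 * 2) ^ 2 ≤ X := by exact_mod_cast hX
  have hX80 : (2 : ℝ) ^ 80 ≤ X := by nlinarith [sq_nonneg (192 * (2 : ℝ))]
  have hXB : (192 * (2 : ℝ)) ^ 2 ≤ X := by
    have : (0 : ℝ) ≤ 2 ^ 80 := by norm_num
    linarith
  have hX0 : (0 : ℝ) < X := lt_of_lt_of_le (by norm_num) hX80
  have hX1 : (1 : ℝ) ≤ X := le_trans (by norm_num) hX80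
  have hlog80 : 80 * Real.log 2 ≤ Real.log X := by
    have := Real.log_le_log (by norm_num) hX80
    rw [Real.log_pow] at this
    exact_mod_cast this
  have hl2 : 0 < Real.log 2 := Real.log_pos (by norm_num)
  have hlX : 0 < Real.log X := by linarith
  set r : ℝ := (X : ℝ) ^ (1 / 16 : ℝ) with hr
  have hr2 : (32 : ℝ) ≤ r := by
    have h1 : ((2 : ℝ) ^ 80) ^ (1 / 16 : ℝ) ≤ r :=
      Real.rpow_le_rpow (by norm_num) hX80 (by norm_num)
    have h2 : ((2 : ℝ) ^ 80) ^ (1 / 16 : ℝ) = 32 := by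
      rw [← Real.rpow_natCast, ← Real.rpow_mul (by norm_num)]
      norm_num
    linarith
  set z : ℕ := ⌊r⌋₊ with hz
  have hzr : (z : ℝ) ≤ r := Nat.floor_le (by linarith)
  have hzr2 : r / 2 ≤ z := by
    have := Nat.lt_floor_add_one r
    rw [← hz] at this
    linarith
  have hz1 : (1 : ℝ) ≤ z := by linarith
  have hz1' : 1 ≤ z := by exact_mod_cast hz1
  have hlogz : Real.log X / 20 ≤ Real.log z := by
    have h1 : Real.log (r / 2) ≤ Real.log z := Real.log_le_log (by linarith) hzr2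
    rw [Real.log_div (by linarith) (by norm_num), hr, Real.log_rpow hX0] at h1
    linarith
  have hlz : 0 < Real.log z := by linarith [div_pos hlX (by norm_num : (0 : ℝ) < 20)]
  have hSF := one_le_SF h
  have hGG := pair_GG1 h z hh hz1'
  set G : ℝ := Op (PPb 2 z) (hp2 h) one1 z with hG
  have hCF : 0 < 4 * SF h := by positivity
  have hGpos : 0 < G := by
    have h1 : 0 < (Real.log z) ^ 2 / 2 := by positivity
    have h3 : 0 < 4 * SF h * G := lt_of_lt_of_le h1 hGG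
    exact (pos_iff_pos_of_mul_pos h3).1 hCF
  have hGinv : G⁻¹ ≤ 800 * (4 * SF h) / (Real.log X) ^ 2 := by
    have h1 : (Real.log X) ^ 2 / 800 ≤ (Real.log z) ^ 2 / 2 := by
      have : (Real.log X / 20) ^ 2 ≤ (Real.log z) ^ 2 :=
        pow_le_pow_left₀ (by positivity) hlogz 2
      nlinarith
    have h3 : (Real.log X) ^ 2 / 800 ≤ 4 * SF h * G := h1.trans hGG
    rw [inv_eq_one_div, div_le_div_iff₀ hGpos (by positivity)]
    nlinarith
  have hsel := pair_selberg 2 (1 % 2) h (X / 2) z (by norm_num) (by norm_num) hh hz1'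
  have hcount := psc_count 2 X 1 h (by norm_num)
  have hcount' : (((Finset.Icc 1 X).filter fun m => m ≡ 1 [MOD 2] ∧ m.Prime ∧
      (m + h).Prime).card : ℝ) ≤ 1 + (((Finset.Icc 1 (X / 2)).filter fun m =>
        (1 % 2 + 2 * m).Prime ∧ (1 % 2 + 2 * m + h).Prime).card : ℝ) := by
    exact_mod_cast hcount
  have hN : (((X / 2 : ℕ)) : ℝ) ≤ (X : ℝ) / 2 := by
    have := @Nat.cast_div_le ℝ _ _ _ X 2
    exact_mod_cast this
  have hs2 : (∑ l ∈ (Nat.divisors (WWb 2 z)).filter (fun l => l ≤ z),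
      (2 : ℝ) ^ l.primeFactors.card) ^ 2 ≤ (z : ℝ) ^ 4 := by
    have h1 := psc_sum (WWb 2 z) z
    have h0 : 0 ≤ ∑ l ∈ (Nat.divisors (WWb 2 z)).filter (fun l => l ≤ z),
      (2 : ℝ) ^ l.primeFactors.card := Finset.sum_nonneg (fun _ _ => by positivity)
    calc _ ≤ ((z : ℝ) ^ 2) ^ 2 := pow_le_pow_left₀ h0 h1 2
      _ = (z : ℝ) ^ 4 := by ring
  have hNG : (((X / 2 : ℕ)) : ℝ) * G⁻¹ ≤
      (X : ℝ) / 2 * (800 * (4 * SF h) / (Real.log X) ^ 2) :=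
    mul_le_mul hN hGinv (inv_nonneg.2 hGpos.le) (by positivity)
  have hsmall : 1 + (z : ℝ) + (z : ℝ) ^ 4 ≤ (X : ℝ) / 2 / (Real.log X) ^ 2 := by
    have hr1 : (1 : ℝ) ≤ r := by linarith
    have e4 : r ^ 4 = (X : ℝ) ^ (1 / 4 : ℝ) := by
      rw [hr, ← Real.rpow_natCast, ← Real.rpow_mul hX0.le]
      norm_num
    have h1 : 1 + (z : ℝ) + (z : ℝ) ^ 4 ≤ 3 * (X : ℝ) ^ (1 / 4 : ℝ) := by
      have ha : (z : ℝ) ^ 4 ≤ r ^ 4 := pow_le_pow_left₀ (by linarith) hzr 4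
      have hb : r ≤ r ^ 4 := le_self_pow₀ hr1 (by norm_num)
      rw [← e4]
      linarith
    have h3 : Real.log X ≤ 8 * (X : ℝ) ^ (1 / 8 : ℝ) := by
      have := Real.log_le_rpow_div hX0.le (by norm_num : (0 : ℝ) < 1 / 8)
      linarith
    have h4 : (Real.log X) ^ 2 ≤ 64 * (X : ℝ) ^ (1 / 4 : ℝ) := by
      have e8 : ((X : ℝ) ^ (1 / 8 : ℝ)) ^ 2 = (X : ℝ) ^ (1 / 4 : ℝ) := by
        rw [← Real.rpow_natCast, ← Real.rpow_mul hX0.le]
        norm_num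
      calc (Real.log X) ^ 2 ≤ (8 * (X : ℝ) ^ (1 / 8 : ℝ)) ^ 2 := pow_le_pow_left₀ hlX.le h3 2
        _ = 64 * (X : ℝ) ^ (1 / 4 : ℝ) := by rw [mul_pow, e8]; norm_num
    have hs : (X : ℝ) ^ (1 / 4 : ℝ) * (X : ℝ) ^ (1 / 4 : ℝ) = Real.sqrt X := by
      rw [← Real.rpow_add hX0, Real.sqrt_eq_rpow]
      norm_num
    have hq : 192 * (2 : ℝ) ≤ Real.sqrt X := Real.le_sqrt_of_sq_le hXB
    have hsq : Real.sqrt X * Real.sqrt X = X := Real.mul_self_sqrt hX0.le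
    have hq0 : 0 ≤ Real.sqrt X := Real.sqrt_nonneg _
    rw [div_div, le_div_iff₀ (by positivity)]
    have hX4 : 0 ≤ (X : ℝ) ^ (1 / 4 : ℝ) := by positivity
    calc (1 + (z : ℝ) + (z : ℝ) ^ 4) * (2 * Real.log X ^ 2)
        ≤ (3 * (X : ℝ) ^ (1 / 4 : ℝ)) * (2 * (64 * (X : ℝ) ^ (1 / 4 : ℝ))) := by
          refine mul_le_mul h1 ?_ (by positivity) (by positivity)
          exact mul_le_mul_of_nonneg_left h4 (by norm_num)
      _ = (192 * 2) * ((X : ℝ) ^ (1 / 4 : ℝ) * (X : ℝ) ^ (1 / 4 : ℝ)) := by ring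
      _ = (192 * 2) * Real.sqrt X := by rw [hs]
      _ ≤ Real.sqrt X * Real.sqrt X := mul_le_mul_of_nonneg_right hq hq0
      _ = X := hsq
  have hfin : (X : ℝ) / 2 / (Real.log X) ^ 2 ≤
      (X : ℝ) / 2 / (Real.log X) ^ 2 * (4 * SF h) :=
    le_mul_of_one_le_right (by positivity) (by linarith)
  have hnn : 0 ≤ (X : ℝ) / (Real.log X) ^ 2 * SF h := by positivity
  calc _ ≤ _ := hcount'
    _ ≤ (1 + (z : ℝ) + (z : ℝ) ^ 4) +
        (X : ℝ) / 2 * (800 * (4 * SF h) / (Real.log X) ^ 2) := by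
      linarith
    _ ≤ (X : ℝ) / 2 / (Real.log X) ^ 2 * (4 * SF h) +
        (X : ℝ) / 2 * (800 * (4 * SF h) / (Real.log X) ^ 2) := by
      linarith
    _ = 1602 * ((X : ℝ) / (Real.log X) ^ 2 * SF h) := by ring
    _ ≤ 3202 * ((X : ℝ) / (Real.log X) ^ 2 * SF h) := by linarith
    _ = 3202 * ((X : ℝ) / (Real.log X) ^ 2) * SF h := by ring

end Pool.Agent.H78.CB
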